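import Pool.Agent.Q35.GR.Def

set_option autoImplicit false

/-! General lemmas on polynomials along curves, closures and conormal spaces. -/

namespace Pool.Agent.Q35.GR

open MvPolynomial

variable {K : Type*} [Field K]

section gen

variable {σ : Type*} [Fintype σ] [DecidableEq σ]

theorem eval_aeval (f : MvPolynomial σ K) (c : σ → Polynomial K) (t : K) :
    (aeval c f).eval t = eval (fun s => (c s).eval t) f := by
  have h : (Polynomial.evalRingHom t) (aeval c f) =
      eval₂Hom ((Polynomial.evalRingHom t).comp (algebraMap K (Polynomial K)))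
        (fun i => (Polynomial.evalRingHom t) (c i)) f := map_aeval _ _ _
  rw [Polynomial.coe_evalRingHom] at h
  rw [h]
  have h2 : (Polynomial.evalRingHom t).comp (algebraMap K (Polynomial K)) = RingHom.id K := by
    ext1 z
    simp
  rw [h2]
  rfl

theorem taylor (f : MvPolynomial σ K) (x : σ → K) (d : σ → Polynomial K) (k : ℕ) :
    ∃ q : Polynomial K, aeval (fun s => Polynomial.C (x s) + Polynomial.X ^ k * d s) f =
      Polynomial.C (eval x f) +
      Polynomial.X ^ k * ∑ s, d s * Polynomial.C (eval x (pderiv s f)) +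
      Polynomial.X ^ (2 * k) * q := by
  induction f using MvPolynomial.induction_on with
  | C a => exact ⟨0, by simp [Polynomial.algebraMap_eq]⟩
  | add f g hf hg =>
    obtain ⟨q1, h1⟩ := hf
    obtain ⟨q2, h2⟩ := hg
    refine ⟨q1 + q2, ?_⟩
    rw [map_add, h1, h2]
    simp only [map_add, mul_add, Finset.sum_add_distrib]
    ring
  | mul_X f s hf =>
    obtain ⟨q1, h1⟩ := hf
    refine ⟨(∑ s, d s * Polynomial.C (eval x (pderiv s f))) * d s +
      q1 * (Polynomial.C (x s) + Polynomial.X ^ k * d s), ?_⟩
    rw [map_mul, h1, aeval_X]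
    have e4 : ∀ r : σ, eval x (pderiv r (f * X s)) =
        eval x (pderiv r f) * x s + eval x f * (if r = s then 1 else 0) := by
      intro r
      rw [pderiv_mul, map_add, map_mul, map_mul, eval_X, pderiv_X]
      congr 2
      by_cases h : r = s
      · subst h
        simp
      · rw [if_neg h, Pi.single_eq_of_ne' h]
        simp
    have e5 : ∑ r, d r * Polynomial.C (eval x (pderiv r (f * X s))) =
        (∑ r, d r * Polynomial.C (eval x (pderiv r f))) * Polynomial.C (x s) +
        d s * Polynomial.C (eval x f) := by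
      simp only [e4, map_add, map_mul, mul_add]
      rw [Finset.sum_add_distrib, Finset.sum_mul]
      congr 1
      · exact Finset.sum_congr rfl (fun r _ => by ring)
      · rw [Finset.sum_eq_single s]
        · simp
        · intro r _ hr
          rw [if_neg hr]; simp
        · intro h; exact absurd (Finset.mem_univ _) h
    rw [e5, map_mul, eval_X, map_mul]
    ring

/-- a polynomial in one variable with infinitely many zeros -/
theorem aeval_eq_zero [Infinite K] (f : MvPolynomial σ K) (c : σ → Polynomial K) (F : Set K)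
    (hF : F.Finite) (h : ∀ t ∉ F, eval (fun s => (c s).eval t) f = 0) : aeval c f = 0 := by
  apply Polynomial.eq_zero_of_infinite_isRoot
  refine Set.Infinite.mono ?_ (hF.infinite_compl)
  intro t ht
  change (aeval c f).eval t = 0
  rw [eval_aeval]
  exact h t ht

omit [Fintype σ] [DecidableEq σ] in
theorem coeff_line {a b : K} {q : Polynomial K}
    (h : 0 = Polynomial.C a + Polynomial.X * Polynomial.C b + Polynomial.X ^ 2 * q) : b = 0 := by
  have h1 := congrArg (fun p => Polynomial.coeff p 1) h
  simp only [Polynomial.coeff_zero, Polynomial.coeff_add, Polynomial.coeff_X_pow_mul'] at h1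
  rw [Polynomial.coeff_C, Polynomial.coeff_X_mul (n := 0)] at h1
  simp at h1
  exact h1.symm

omit [Fintype σ] [DecidableEq σ] in
theorem coeff_cusp {a v u : K} {q : Polynomial K}
    (h : 0 = Polynomial.C a + Polynomial.X ^ 2 * (Polynomial.C v + Polynomial.X * Polynomial.C u) +
      Polynomial.X ^ 4 * q) : v = 0 ∧ u = 0 := by
  constructor
  · have h1 := congrArg (fun p => Polynomial.coeff p 2) h
    simp only [Polynomial.coeff_zero, Polynomial.coeff_add, Polynomial.coeff_X_pow_mul'] at h1
    rw [Polynomial.coeff_C] at h1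
    simp at h1
    exact h1.symm
  · have h1 := congrArg (fun p => Polynomial.coeff p 3) h
    simp only [Polynomial.coeff_zero, Polynomial.coeff_add, Polynomial.coeff_X_pow_mul'] at h1
    rw [Polynomial.coeff_C] at h1
    simp [Polynomial.coeff_C] at h1
    exact h1.symm

/-- vanishing along a line gives a relation between the partial derivatives -/
theorem line_deriv [Infinite K] (f : MvPolynomial σ K) (x v : σ → K) (F : Set K)
    (hF : F.Finite) (h : ∀ t ∉ F, eval (x + t • v) f = 0) :
    ∑ s, v s * eval x (pderiv s f) = 0 := by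
  obtain ⟨q, hq⟩ := taylor f x (fun s => Polynomial.C (v s)) 1
  rw [aeval_eq_zero f _ F hF (by
    intro t ht
    have e : (fun s => Polynomial.eval t (Polynomial.C (x s) + Polynomial.X ^ 1 *
        Polynomial.C (v s))) = x + t • v := by
      funext s; simp only [Polynomial.eval_add, Polynomial.eval_mul, Polynomial.eval_C,
        Polynomial.eval_pow, Polynomial.eval_X, pow_one, Pi.add_apply, Pi.smul_apply, smul_eq_mul]
    rw [e]
    exact h t ht)] at hq
  apply coeff_line (a := eval x f) (q := q)
  rw [hq, pow_one, mul_one, map_sum]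
  simp only [map_mul]

/-- vanishing along a curve gives a relation between the partial derivatives -/
theorem curve_deriv [Infinite K] (f : MvPolynomial σ K) (x v w u : σ → K) (F : Set K)
    (hF : F.Finite) (h : ∀ t ∉ F, eval (x + t • v + t ^ 2 • w + t ^ 3 • u) f = 0) :
    ∑ s, v s * eval x (pderiv s f) = 0 := by
  obtain ⟨q, hq⟩ := taylor f x (fun s => Polynomial.C (v s) + Polynomial.X * Polynomial.C (w s) +
    Polynomial.X ^ 2 * Polynomial.C (u s)) 1
  rw [aeval_eq_zero f _ F hF (by
    intro t ht
    have e : (fun s => Polynomial.eval t (Polynomial.C (x s) + Polynomial.X ^ 1 *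
        (Polynomial.C (v s) + Polynomial.X * Polynomial.C (w s) +
          Polynomial.X ^ 2 * Polynomial.C (u s)))) = x + t • v + t ^ 2 • w + t ^ 3 • u := by
      funext s
      simp only [Polynomial.eval_add, Polynomial.eval_mul, Polynomial.eval_C,
        Polynomial.eval_pow, Polynomial.eval_X, pow_one, Pi.add_apply, Pi.smul_apply, smul_eq_mul]
      ring
    rw [e]
    exact h t ht)] at hq
  have h1 := congrArg (fun p => Polynomial.coeff p 1) hq
  simp only [Polynomial.coeff_zero, Polynomial.coeff_add, Polynomial.coeff_X_pow_mul'] at h1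
  rw [Polynomial.coeff_C] at h1
  simp [Polynomial.finset_sum_coeff, Polynomial.mul_coeff_zero] at h1
  exact h1.symm

/-- vanishing along a cusp gives relations between the partial derivatives -/
theorem cusp_deriv [Infinite K] (f : MvPolynomial σ K) (x v u : σ → K) (F : Set K)
    (hF : F.Finite) (h : ∀ t ∉ F, eval (x + t ^ 2 • v + t ^ 3 • u) f = 0) :
    ∑ s, v s * eval x (pderiv s f) = 0 ∧ ∑ s, u s * eval x (pderiv s f) = 0 := by
  obtain ⟨q, hq⟩ := taylor f x (fun s => Polynomial.C (v s) + Polynomial.X * Polynomial.C (u s)) 2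
  rw [aeval_eq_zero f _ F hF (by
    intro t ht
    have e : (fun s => Polynomial.eval t (Polynomial.C (x s) + Polynomial.X ^ 2 *
        (Polynomial.C (v s) + Polynomial.X * Polynomial.C (u s)))) =
        x + t ^ 2 • v + t ^ 3 • u := by
      funext s; simp; ring
    rw [e]
    exact h t ht)] at hq
  apply coeff_cusp (a := eval x f) (q := q)
  rw [hq]
  congr 2
  have e : Polynomial.X * Polynomial.C (∑ s, u s * eval x (pderiv s f)) =
      ∑ s, Polynomial.X * Polynomial.C (u s * eval x (pderiv s f)) := by
    rw [map_sum, Finset.mul_sum]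
  rw [e, map_sum, ← Finset.sum_add_distrib]
  congr 1
  refine Finset.sum_congr rfl (fun s _ => ?_)
  rw [map_mul, map_mul]
  ring

end gen

variable {m N : ℕ}

theorem ev_grad (f : MvPolynomial (Fin m × Fin N) K) (A B : Matrix (Fin m) (Fin N) K) :
    ∑ s : Fin m × Fin N, B s.1 s.2 * eval (fun s => A s.1 s.2) (pderiv s f) =
      ∑ i, ∑ j, B i j * grad f A i j := by
  rw [Fintype.sum_prod_type]
  rfl

/-- pairing of matrices -/
def pr (B M : Matrix (Fin m) (Fin N) K) : K := ∑ i, ∑ j, B i j * M i j

theorem pr_line [Infinite K] {S : Set (Matrix (Fin m) (Fin N) K)}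
    {f : MvPolynomial (Fin m × Fin N) K} (hf : Van S f) (A B : Matrix (Fin m) (Fin N) K)
    (F : Set K) (hF : F.Finite) (h : ∀ t ∉ F, A + t • B ∈ S) : pr B (grad f A) = 0 := by
  unfold pr
  rw [← ev_grad]
  apply line_deriv f _ (fun s => B s.1 s.2) F hF
  intro t ht
  exact hf _ (h t ht)

theorem pr_curve [Infinite K] {S : Set (Matrix (Fin m) (Fin N) K)}
    {f : MvPolynomial (Fin m × Fin N) K} (hf : Van S f) (A V W U : Matrix (Fin m) (Fin N) K)
    (F : Set K) (hF : F.Finite) (h : ∀ t ∉ F, A + t • V + t ^ 2 • W + t ^ 3 • U ∈ S) :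
    pr V (grad f A) = 0 := by
  unfold pr
  rw [← ev_grad]
  apply curve_deriv f _ (fun s => V s.1 s.2) (fun s => W s.1 s.2) (fun s => U s.1 s.2) F hF
  intro t ht
  exact hf _ (h t ht)

theorem pr_cusp [Infinite K] {S : Set (Matrix (Fin m) (Fin N) K)}
    {f : MvPolynomial (Fin m × Fin N) K} (hf : Van S f) (A V U : Matrix (Fin m) (Fin N) K)
    (F : Set K) (hF : F.Finite) (h : ∀ t ∉ F, A + t ^ 2 • V + t ^ 3 • U ∈ S) :
    pr V (grad f A) = 0 ∧ pr U (grad f A) = 0 := by
  unfold pr
  rw [← ev_grad, ← ev_grad]
  apply cusp_deriv f _ (fun s => V s.1 s.2) (fun s => U s.1 s.2) F hF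
  intro t ht
  exact hf _ (h t ht)

/-- the set of frames in the Zariski closure -/
def clo (T : Set (Matrix (Fin m) (Fin N) K)) : Set (Matrix (Fin m) (Fin N) K) :=
  {A | IsFrame A ∧ ∀ f, Van T f → ev f A = 0}

theorem subset_clo {T : Set (Matrix (Fin m) (Fin N) K)} (h : ∀ A ∈ T, IsFrame A) : T ⊆ clo T :=
  fun A hA => ⟨h A hA, fun _ hf => hf A hA⟩

theorem van_clo {T : Set (Matrix (Fin m) (Fin N) K)} (h : ∀ A ∈ T, IsFrame A)
    (f : MvPolynomial (Fin m × Fin N) K) : Van (clo T) f ↔ Van T f :=
  ⟨fun hf A hA => hf A (subset_clo h hA), fun hf _ hA => hA.2 f hf⟩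

theorem conormal_clo {T : Set (Matrix (Fin m) (Fin N) K)} (h : ∀ A ∈ T, IsFrame A)
    (A : Matrix (Fin m) (Fin N) K) : conormal (clo T) A = conormal T A := by
  unfold conormal
  simp only [van_clo h]


theorem grad_X (s : Fin m × Fin N) (A : Matrix (Fin m) (Fin N) K) (i : Fin m) (j : Fin N) :
    grad (X s) A i j = if (i, j) = s then 1 else 0 := by
  simp only [grad, ev, Matrix.of_apply]
  rw [pderiv_X]
  by_cases h : (i, j) = s
  · subst h; simp
  · rw [if_neg h, Pi.single_eq_of_ne' h]; simp

theorem grad_mul (f g : MvPolynomial (Fin m × Fin N) K) (A : Matrix (Fin m) (Fin N) K)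
    (i : Fin m) (j : Fin N) :
    grad (f * g) A i j = grad f A i j * ev g A + ev f A * grad g A i j := by
  simp only [grad, ev, Matrix.of_apply]
  rw [pderiv_mul, map_add, map_mul, map_mul]

theorem grad_add (f g : MvPolynomial (Fin m × Fin N) K) (A : Matrix (Fin m) (Fin N) K)
    (i : Fin m) (j : Fin N) : grad (f + g) A i j = grad f A i j + grad g A i j := by
  simp only [grad, ev, Matrix.of_apply]
  rw [map_add, map_add]

theorem grad_sub (f g : MvPolynomial (Fin m × Fin N) K) (A : Matrix (Fin m) (Fin N) K)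
    (i : Fin m) (j : Fin N) : grad (f - g) A i j = grad f A i j - grad g A i j := by
  simp only [grad, ev, Matrix.of_apply]
  rw [map_sub, map_sub]

theorem ev_X (s : Fin m × Fin N) (A : Matrix (Fin m) (Fin N) K) : ev (X s) A = A s.1 s.2 := by
  unfold ev; simp

theorem ev_mul (f g : MvPolynomial (Fin m × Fin N) K) (A : Matrix (Fin m) (Fin N) K) :
    ev (f * g) A = ev f A * ev g A := by
  unfold ev; simp

theorem ev_sub (f g : MvPolynomial (Fin m × Fin N) K) (A : Matrix (Fin m) (Fin N) K) :
    ev (f - g) A = ev f A - ev g A := by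
  unfold ev; simp

theorem ev_add (f g : MvPolynomial (Fin m × Fin N) K) (A : Matrix (Fin m) (Fin N) K) :
    ev (f + g) A = ev f A + ev g A := by
  unfold ev; simp

theorem grad_mem {S : Set (Matrix (Fin m) (Fin N) K)} {f : MvPolynomial (Fin m × Fin N) K}
    (hf : Van S f) (A : Matrix (Fin m) (Fin N) K) : grad f A ∈ conormal S A :=
  Submodule.subset_span ⟨f, hf, rfl⟩

end Pool.Agent.Q35.GR
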