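import Mathlib

set_option autoImplicit false

/-!
# Subvarieties of Grassmannians, conormal spaces, coisotropy

The Grassmannian of `m`-dimensional linear subspaces of `K^N` (`m = ℓ + 1`, `N = n + 1`) is the
quotient of the set of frames (`m × N` matrices `A` with independent rows; `A` represents its row
space `L`) by `GL_m`. A subset of the Grassmannian is given by the set of all frames of its
elements, which is stable under `GL_m`; closed and irreducible subsets correspond to closed and
irreducible stable sets of frames.

A cotangent vector at `L`, that is a homomorphism `K^N / L → L`, is given by an `m × N` matrix `M`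
with `A Mᵀ = 0` (its rows `M_i` are functionals on `K^N / L`): the homomorphism is
`v ↦ ∑ M_i(v) A_i`, of the same rank as `M`; its pairing with the tangent vector
`A_i ↦ B_i mod L` is `∑ M_i(B_i)`.
-/

namespace Pool.Agent.Q35.GR

open MvPolynomial

variable {K : Type*} [Field K] {m N : ℕ}

/-- The matrix `A` is a frame: its rows are linearly independent. -/
def IsFrame (A : Matrix (Fin m) (Fin N) K) : Prop := LinearIndependent K A.row

/-- The value at `A` of a polynomial in the entries. -/
noncomputable def ev (f : MvPolynomial (Fin m × Fin N) K) (A : Matrix (Fin m) (Fin N) K) : K :=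
  eval (fun s => A s.1 s.2) f

/-- The polynomial `f` vanishes on `S`. -/
def Van (S : Set (Matrix (Fin m) (Fin N) K)) (f : MvPolynomial (Fin m × Fin N) K) : Prop :=
  ∀ A ∈ S, ev f A = 0

/-- The matrix of partial derivatives of `f` at `A`. -/
noncomputable def grad (f : MvPolynomial (Fin m × Fin N) K) (A : Matrix (Fin m) (Fin N) K) :
    Matrix (Fin m) (Fin N) K :=
  Matrix.of fun i j => ev (pderiv (i, j) f) A

/-- `S` is (the set of frames of) an irreducible Zariski closed subset of the Grassmannian. -/
structure IsVariety (S : Set (Matrix (Fin m) (Fin N) K)) : Prop where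
  frames : ∀ A ∈ S, IsFrame A
  stable : ∀ A ∈ S, ∀ g : Matrix (Fin m) (Fin m) K, g.det ≠ 0 → g * A ∈ S
  closed : ∀ A, IsFrame A → (∀ f, Van S f → ev f A = 0) → A ∈ S
  nonempty : S.Nonempty
  irreducible : ∀ f g, Van S (f * g) → Van S f ∨ Van S g

/-- The conormal space at (the row space of) `A`: the annihilator of the Zariski tangent space. -/
noncomputable def conormal (S : Set (Matrix (Fin m) (Fin N) K)) (A : Matrix (Fin m) (Fin N) K) :
    Submodule K (Matrix (Fin m) (Fin N) K) :=
  Submodule.span K {M | ∃ f, Van S f ∧ M = grad f A}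

/-- `A` is a smooth point of `S`: the conormal space has the maximal dimension, which is the
codimension of `S` (Jacobian criterion). -/
def Smooth (S : Set (Matrix (Fin m) (Fin N) K)) (A : Matrix (Fin m) (Fin N) K) : Prop :=
  A ∈ S ∧ ∀ B ∈ S, Module.finrank K (conormal S B) ≤ Module.finrank K (conormal S A)

/-- The singular locus. -/
def Sing (S : Set (Matrix (Fin m) (Fin N) K)) : Set (Matrix (Fin m) (Fin N) K) :=
  {A | A ∈ S ∧ ¬ Smooth S A}

/-- `Z` is an irreducible component of `T`. -/
def IsComponent (Z T : Set (Matrix (Fin m) (Fin N) K)) : Prop :=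
  IsVariety Z ∧ Z ⊆ T ∧ ∀ Y, IsVariety Y → Z ⊆ Y → Y ⊆ T → Y = Z

/-- The matrices `E` which represent homomorphisms `K^N / L → L` of rank one. -/
def RankOne (A E : Matrix (Fin m) (Fin N) K) : Prop := A * E.transpose = 0 ∧ E.rank = 1

/-- The bases of the `c`-dimensional spaces of homomorphisms `K^N / L → L` which are spanned by
homomorphisms of rank one. -/
def RFrames (A : Matrix (Fin m) (Fin N) K) (c : ℕ) : Set (Fin c → Matrix (Fin m) (Fin N) K) :=
  {F | LinearIndependent K F ∧ ∃ E : Fin c → Matrix (Fin m) (Fin N) K,
    (∀ i, RankOne A (E i)) ∧ Submodule.span K (Set.range F) = Submodule.span K (Set.range E)}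

/-- The `c`-dimensional space `W` is in the Zariski closure of `R_L` (in the Grassmannian of
`c`-dimensional spaces of homomorphisms): some basis of `W` is in the Zariski closure of the set of
bases of elements of `R_L`. -/
def InClosureR (A : Matrix (Fin m) (Fin N) K) (c : ℕ)
    (W : Submodule K (Matrix (Fin m) (Fin N) K)) : Prop :=
  ∃ F : Fin c → Matrix (Fin m) (Fin N) K, LinearIndependent K F ∧
    Submodule.span K (Set.range F) = W ∧
    ∀ P : MvPolynomial (Fin c × Fin m × Fin N) K,
      (∀ G ∈ RFrames A c, eval (fun s => G s.1 s.2.1 s.2.2) P = 0) →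
      eval (fun s => F s.1 s.2.1 s.2.2) P = 0

/-- `S` is coisotropic. -/
def Coisotropic (S : Set (Matrix (Fin m) (Fin N) K)) : Prop :=
  ∀ A, Smooth S A → InClosureR A (Module.finrank K (conormal S A)) (conormal S A)

end Pool.Agent.Q35.GR
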