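import Pool.Agent.Q35.GR.Lin

set_option autoImplicit false

/-! The example: sets of frames, stability, irreducibility. -/

namespace Pool.Agent.Q35.GR

open MvPolynomial Matrix

variable {K : Type*} [Field K]

/-- `2 × 7` matrices -/
abbrev M27 (K : Type*) := Matrix (Fin 2) (Fin 7) K

abbrev P27 (K : Type*) [Field K] := MvPolynomial (Fin 2 × Fin 7) K

def Pf (A : M27 K) : K := A 0 0 * A 1 1 - A 0 1 * A 1 0
def Af (A : M27 K) : K :=
  (A 0 2 * A 1 1 - A 0 1 * A 1 2) + (A 0 0 * A 1 3 - A 0 3 * A 1 0)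
def Bf (A : M27 K) : K :=
  (A 0 4 * A 1 1 - A 0 1 * A 1 4) + (A 0 0 * A 1 5 - A 0 5 * A 1 0)

noncomputable def Pp : P27 K := X (0, 0) * X (1, 1) - X (0, 1) * X (1, 0)
noncomputable def Ap : P27 K :=
  (X (0, 2) * X (1, 1) - X (0, 1) * X (1, 2)) + (X (0, 0) * X (1, 3) - X (0, 3) * X (1, 0))
noncomputable def Bp : P27 K :=
  (X (0, 4) * X (1, 1) - X (0, 1) * X (1, 4)) + (X (0, 0) * X (1, 5) - X (0, 5) * X (1, 0))
noncomputable def Fp : P27 K := Ap * Ap * Pp - Bp * Bp * Bp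

theorem ev_Pp (A : M27 K) : ev Pp A = Pf A := by simp only [Pp, ev_sub, ev_mul, ev_X, Pf]
theorem ev_Ap (A : M27 K) : ev Ap A = Af A := by
  simp only [Ap, ev_sub, ev_add, ev_mul, ev_X, Af]
theorem ev_Bp (A : M27 K) : ev Bp A = Bf A := by
  simp only [Bp, ev_sub, ev_add, ev_mul, ev_X, Bf]
theorem ev_Fp (A : M27 K) : ev Fp A = Af A * Af A * Pf A - Bf A * Bf A * Bf A := by
  simp only [Fp, ev_sub, ev_mul, ev_Ap, ev_Pp, ev_Bp]

/-- the open part of the hypersurface `a² = b³` -/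
def S0 (K : Type*) [Field K] : Set (M27 K) :=
  {A | Pf A ≠ 0 ∧ A 0 6 = 0 ∧ A 1 6 = 0 ∧ Af A * Af A * Pf A = Bf A * Bf A * Bf A}

/-- the open part of the singular component -/
def Z0 (K : Type*) [Field K] : Set (M27 K) :=
  {A | Pf A ≠ 0 ∧ A 0 6 = 0 ∧ A 1 6 = 0 ∧ Af A = 0 ∧ Bf A = 0}

theorem Z0_sub_S0 : Z0 K ⊆ S0 K := by
  rintro A ⟨h1, h2, h3, h4, h5⟩
  exact ⟨h1, h2, h3, by rw [h4, h5]; ring⟩

theorem frame_of_Pf {A : M27 K} (h : Pf A ≠ 0) : IsFrame A := by
  unfold IsFrame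
  have e : A.row = ![A.row 0, A.row 1] := by
    funext i; fin_cases i <;> rfl
  rw [e, LinearIndependent.pair_iff]
  intro s t hst
  have h0 := congrFun hst 0
  have h1 := congrFun hst 1
  simp only [Pi.add_apply, Pi.smul_apply, smul_eq_mul, Pi.zero_apply, Matrix.row_apply] at h0 h1
  constructor
  · have : s * Pf A = 0 := by unfold Pf; linear_combination (A 1 1) * h0 - (A 1 0) * h1
    exact (mul_eq_zero.1 this).resolve_right h
  · have : t * Pf A = 0 := by unfold Pf; linear_combination (A 0 0) * h1 - (A 0 1) * h0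
    exact (mul_eq_zero.1 this).resolve_right h

theorem Pf_mul (g : Matrix (Fin 2) (Fin 2) K) (A : M27 K) : Pf (g * A) = g.det * Pf A := by
  simp only [Pf, mul_apply, Fin.sum_univ_two, det_fin_two]; ring
theorem Af_mul (g : Matrix (Fin 2) (Fin 2) K) (A : M27 K) : Af (g * A) = g.det * Af A := by
  simp only [Af, mul_apply, Fin.sum_univ_two, det_fin_two]; ring
theorem Bf_mul (g : Matrix (Fin 2) (Fin 2) K) (A : M27 K) : Bf (g * A) = g.det * Bf A := by
  simp only [Bf, mul_apply, Fin.sum_univ_two, det_fin_two]; ring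

theorem S0_stable : ∀ A ∈ S0 K, ∀ g : Matrix (Fin 2) (Fin 2) K, g.det ≠ 0 → g * A ∈ S0 K := by
  rintro A ⟨h1, h2, h3, h4⟩ g hg
  refine ⟨by rw [Pf_mul]; exact mul_ne_zero hg h1, ?_, ?_, ?_⟩
  · simp only [mul_apply, Fin.sum_univ_two, h2, h3]; ring
  · simp only [mul_apply, Fin.sum_univ_two, h2, h3]; ring
  · rw [Pf_mul, Af_mul, Bf_mul]
    linear_combination g.det ^ 3 * h4

theorem Z0_stable : ∀ A ∈ Z0 K, ∀ g : Matrix (Fin 2) (Fin 2) K, g.det ≠ 0 → g * A ∈ Z0 K := by
  rintro A ⟨h1, h2, h3, h4, h5⟩ g hg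
  refine ⟨by rw [Pf_mul]; exact mul_ne_zero hg h1, ?_, ?_, ?_, ?_⟩
  · simp only [mul_apply, Fin.sum_univ_two, h2, h3]; ring
  · simp only [mul_apply, Fin.sum_univ_two, h2, h3]; ring
  · rw [Af_mul, h4, mul_zero]
  · rw [Bf_mul, h5, mul_zero]

/-- a set with a rational parametrization is irreducible -/
theorem irred_param [Infinite K] {m N : ℕ} {τ : Type*} (ψ : Fin m × Fin N → MvPolynomial τ K)
    (d : MvPolynomial τ K) (hd : d ≠ 0) (T : Set (Matrix (Fin m) (Fin N) K))
    (h1 : ∀ x : τ → K, eval x d ≠ 0 → Matrix.of (fun i j => eval x (ψ (i, j))) ∈ T)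
    (h2 : ∀ A ∈ T, ∃ x : τ → K, eval x d ≠ 0 ∧ A = Matrix.of (fun i j => eval x (ψ (i, j))))
    (f g : MvPolynomial (Fin m × Fin N) K) (h : Van T (f * g)) : Van T f ∨ Van T g := by
  have key : ∀ (f : MvPolynomial (Fin m × Fin N) K) (x : τ → K),
      eval x (aeval ψ f) = ev f (Matrix.of (fun i j => eval x (ψ (i, j)))) := by
    intro f x
    rw [eval_subst]
    rfl
  have h3 : aeval ψ f * aeval ψ g * d = 0 := by
    apply MvPolynomial.funext
    intro x
    rw [map_mul, map_mul, map_zero, key, key]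
    by_cases hx : eval x d = 0
    · rw [hx, mul_zero]
    · have := h _ (h1 x hx)
      rw [ev_mul] at this
      rw [this, zero_mul]
  have h4 : aeval ψ f = 0 ∨ aeval ψ g = 0 := by
    rcases mul_eq_zero.1 h3 with h | h
    · exact mul_eq_zero.1 h
    · exact absurd h hd
  rcases h4 with h | h
  · left
    intro A hA
    obtain ⟨x, -, rfl⟩ := h2 A hA
    rw [← key, h, map_zero]
  · right
    intro A hA
    obtain ⟨x, -, rfl⟩ := h2 A hA
    rw [← key, h, map_zero]

/-- the parametrization; `α`, `β` are the values of `a`, `b` -/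
noncomputable def psi (α β : P27 K) : Fin 2 × Fin 7 → P27 K := fun s =>
  (![![X (0, 0), X (0, 1),
      X (0, 0) * (α - X (1, 3)) + X (0, 1) * X (1, 2), X (0, 0) * X (0, 3) + X (0, 1) * X (1, 3),
      X (0, 0) * (β - X (1, 5)) + X (0, 1) * X (1, 4), X (0, 0) * X (0, 5) + X (0, 1) * X (1, 5), 0],
    ![X (1, 0), X (1, 1),
      X (1, 0) * (α - X (1, 3)) + X (1, 1) * X (1, 2), X (1, 0) * X (0, 3) + X (1, 1) * X (1, 3),
      X (1, 0) * (β - X (1, 5)) + X (1, 1) * X (1, 4), X (1, 0) * X (0, 5) + X (1, 1) * X (1, 5), 0]]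
    s.1 s.2)

theorem Pp_ne : (Pp : P27 K) ≠ 0 := by
  intro h
  have h1 : ev (Pp : P27 K) (Matrix.of (fun i j => if i.val = j.val then 1 else 0)) = 0 := by
    rw [h]; simp [ev]
  rw [ev_Pp] at h1
  simp [Pf] at h1

theorem psi_vals (α β : P27 K) (x : Fin 2 × Fin 7 → K) :
    Pf (Matrix.of (fun i j => eval x (psi α β (i, j)))) = eval x Pp ∧
    Af (Matrix.of (fun i j => eval x (psi α β (i, j)))) = eval x Pp * eval x α ∧
    Bf (Matrix.of (fun i j => eval x (psi α β (i, j)))) = eval x Pp * eval x β := by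
  refine ⟨?_, ?_, ?_⟩
  · simp [Pf, psi, Pp]
  · simp [Af, psi, Pp]; ring
  · simp [Bf, psi, Pp]; ring


/-- the point of the parameter space -/
def prm (A : M27 K) (t : K) : Fin 2 × Fin 7 → K := fun s =>
  (![![A 0 0, A 0 1, t, (A 0 3 * A 1 1 - A 0 1 * A 1 3) / Pf A, 0,
      (A 0 5 * A 1 1 - A 0 1 * A 1 5) / Pf A, 0],
    ![A 1 0, A 1 1, (A 0 0 * A 1 2 - A 0 2 * A 1 0) / Pf A, (A 0 0 * A 1 3 - A 0 3 * A 1 0) / Pf A,
      (A 0 0 * A 1 4 - A 0 4 * A 1 0) / Pf A, (A 0 0 * A 1 5 - A 0 5 * A 1 0) / Pf A, 0]] s.1 s.2)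

theorem prm_spec (A : M27 K) (hP : Pf A ≠ 0) (h0 : A 0 6 = 0) (h1 : A 1 6 = 0) (t : K)
    (α β : P27 K) (hα : Pf A * eval (prm A t) α = Af A) (hβ : Pf A * eval (prm A t) β = Bf A) :
    eval (prm A t) Pp ≠ 0 ∧ A = Matrix.of (fun i j => eval (prm A t) (psi α β (i, j))) := by
  constructor
  · have : eval (prm A t) Pp = Pf A := by simp [Pp, prm, Pf]
    rw [this]; exact hP
  · have e1 : eval (prm A t) α = Af A / Pf A := by field_simp; linear_combination hα
    have e2 : eval (prm A t) β = Bf A / Pf A := by field_simp; linear_combination hβ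
    ext i j
    fin_cases i <;> fin_cases j
    · simp [psi, prm]
    · simp [psi, prm]
    · simp [psi, e1]
      simp [prm]
      field_simp
      unfold Af Pf
      ring
    · simp [psi]
      simp [prm]
      field_simp
      unfold Pf
      ring
    · simp [psi, e2]
      simp [prm]
      field_simp
      unfold Bf Pf
      ring
    · simp [psi]
      simp [prm]
      field_simp
      unfold Pf
      ring
    · simp [psi, h0]
    · simp [psi, prm]
    · simp [psi, prm]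
    · simp [psi, e1]
      simp [prm]
      field_simp
      unfold Af Pf
      ring
    · simp [psi]
      simp [prm]
      field_simp
      unfold Pf
      ring
    · simp [psi, e2]
      simp [prm]
      field_simp
      unfold Bf Pf
      ring
    · simp [psi]
      simp [prm]
      field_simp
      unfold Pf
      ring
    · simp [psi, h1]

theorem S0_irred [Infinite K] (f g : P27 K) (h : Van (S0 K) (f * g)) :
    Van (S0 K) f ∨ Van (S0 K) g := by
  refine irred_param (psi (X (0, 2) ^ 3) (X (0, 2) ^ 2)) Pp Pp_ne (S0 K) ?_ ?_ f g h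
  · intro x hx
    obtain ⟨e1, e2, e3⟩ := psi_vals (X (0, 2) ^ 3) (X (0, 2) ^ 2) x
    refine ⟨by rw [e1]; exact hx, by simp [psi], by simp [psi], ?_⟩
    rw [e1, e2, e3]
    simp only [map_pow, eval_X]
    ring
  · rintro A ⟨h1, h2, h3, h4⟩
    obtain ⟨t, ht1, ht2⟩ : ∃ t : K, Pf A * t ^ 3 = Af A ∧ Pf A * t ^ 2 = Bf A := by
      by_cases hb : Bf A = 0
      · rw [hb] at h4
        have : Af A = 0 := by
          have h5 : Af A * Af A * Pf A = 0 := by rw [h4]; ring
          rcases mul_eq_zero.1 h5 with h | h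
          · exact (mul_self_eq_zero.1 h)
          · exact absurd h h1
        exact ⟨0, by rw [this]; ring, by rw [hb]; ring⟩
      · refine ⟨Af A / Bf A, ?_, ?_⟩
        · field_simp
          have : Pf A * Af A ^ 3 = Af A * (Af A * Af A * Pf A) := by ring
          rw [this, h4]; ring
        · field_simp
          have : Pf A * Af A ^ 2 = (Af A * Af A * Pf A) := by ring
          rw [this, h4]; ring
    refine ⟨prm A t, ?_⟩
    exact prm_spec A h1 h2 h3 t _ _ (by simpa [prm] using ht1) (by simpa [prm] using ht2)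

theorem Z0_irred [Infinite K] (f g : P27 K) (h : Van (Z0 K) (f * g)) :
    Van (Z0 K) f ∨ Van (Z0 K) g := by
  refine irred_param (psi 0 0) Pp Pp_ne (Z0 K) ?_ ?_ f g h
  · intro x hx
    obtain ⟨e1, e2, e3⟩ := psi_vals 0 0 x
    refine ⟨by rw [e1]; exact hx, by simp [psi], by simp [psi], ?_, ?_⟩
    · rw [e2]; simp
    · rw [e3]; simp
  · rintro A ⟨h1, h2, h3, h4, h5⟩
    exact ⟨prm A 0, prm_spec A h1 h2 h3 0 _ _ (by simp [h4]) (by simp [h5])⟩

end Pool.Agent.Q35.GR
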