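import Pool.Agent.Q35.GR.Ex1

set_option autoImplicit false

/-! The conormal spaces of the example. -/

namespace Pool.Agent.Q35.GR

open MvPolynomial Matrix

variable {K : Type*} [Field K]

section gen

variable {m N : ℕ}

theorem finite_det (x v : Matrix (Fin m) (Fin m) K) (hx : x.det ≠ 0) :
    {t : K | (x + t • v).det = 0}.Finite := by
  classical
  set L : Matrix (Fin m) (Fin m) (Polynomial K) :=
    Matrix.of fun i j => Polynomial.C (x i j) + Polynomial.X * Polynomial.C (v i j) with hL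
  have hat : ∀ t : K, (L.map (Polynomial.evalRingHom t)) = x + t • v := by
    intro t
    ext i j
    simp [hL]
    ring
  have hdet : ∀ t : K, L.det.eval t = (x + t • v).det := by
    intro t
    rw [← hat]
    rw [← RingHom.mapMatrix_apply, ← RingHom.map_det]
    rfl
  have h1 : L.det ≠ 0 := by
    intro h
    apply hx
    have := hdet 0
    rw [h] at this
    simpa using this.symm
  refine Set.Finite.subset (L.det.roots.toFinset.finite_toSet) ?_
  intro t ht
  simp only [Finset.mem_coe, Multiset.mem_toFinset]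
  rw [Polynomial.mem_roots h1, Polynomial.IsRoot.def, hdet]
  exact ht

/-- the pairing as a linear map -/
def prL (B : Matrix (Fin m) (Fin N) K) : Matrix (Fin m) (Fin N) K →ₗ[K] K where
  toFun M := pr B M
  map_add' M M' := by
    simp only [pr, Matrix.add_apply, mul_add, Finset.sum_add_distrib]
  map_smul' c M := by
    simp only [pr, Matrix.smul_apply, smul_eq_mul, Finset.mul_sum, RingHom.id_apply]
    refine Finset.sum_congr rfl (fun i _ => Finset.sum_congr rfl (fun j _ => by ring))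

theorem conormal_le (φ : Matrix (Fin m) (Fin N) K →ₗ[K] K) {S : Set (Matrix (Fin m) (Fin N) K)}
    {A : Matrix (Fin m) (Fin N) K} (h : ∀ f, Van S f → φ (grad f A) = 0)
    {M : Matrix (Fin m) (Fin N) K} (hM : M ∈ conormal S A) : φ M = 0 := by
  have : conormal S A ≤ LinearMap.ker φ := by
    unfold conormal
    rw [Submodule.span_le]
    rintro _ ⟨f, hf, rfl⟩
    exact h f hf
  exact this hM

theorem conormal_cot [Infinite K] {S : Set (Matrix (Fin m) (Fin N) K)}
    (hs : ∀ A ∈ S, ∀ g : Matrix (Fin m) (Fin m) K, g.det ≠ 0 → g * A ∈ S)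
    {A : Matrix (Fin m) (Fin N) K} (hA : A ∈ S) {M : Matrix (Fin m) (Fin N) K}
    (hM : M ∈ conormal S A) : A * M.transpose = 0 := by
  ext j i
  have h := conormal_le (prL (Matrix.single i j (1 : K) * A)) (S := S) (A := A) (M := M) (by
    intro f hf
    refine pr_line hf A _ {t : K | ((1 : Matrix (Fin m) (Fin m) K) + t • Matrix.single i j (1 : K)).det = 0}
      (finite_det _ _ (by simp)) ?_
    intro t ht
    have e : A + t • (Matrix.single i j (1 : K) * A) = (1 + t • Matrix.single i j (1 : K)) * A := by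
      rw [Matrix.add_mul, Matrix.one_mul, Matrix.smul_mul]
    rw [e]
    exact hs A hA _ ht) hM
  change pr _ M = 0 at h
  rw [Matrix.mul_apply, Matrix.zero_apply, ← h]
  unfold pr
  rw [Finset.sum_eq_single i]
  · refine Finset.sum_congr rfl (fun k _ => ?_)
    rw [Matrix.transpose_apply, Matrix.single_mul_apply_same, one_mul]
  · intro r _ hr
    apply Finset.sum_eq_zero
    intro k _
    rw [Matrix.single_mul_apply_of_ne _ _ _ _ _ hr, zero_mul]
  · intro h; exact absurd (Finset.mem_univ _) h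

theorem finrank_le_of_inj {k : ℕ} (W : Submodule K (Matrix (Fin m) (Fin N) K))
    (L : Matrix (Fin m) (Fin N) K →ₗ[K] (Fin k → K)) (h : ∀ M ∈ W, L M = 0 → M = 0) :
    Module.finrank K W ≤ k := by
  have hi : Function.Injective (L.comp W.subtype) := by
    rw [← LinearMap.ker_eq_bot, LinearMap.ker_eq_bot']
    intro M hM
    exact Subtype.ext (h M.1 M.2 hM)
  have := LinearMap.finrank_le_finrank_of_injective hi
  simpa using this

theorem finrank_ge_of_indep {k : ℕ} (W : Submodule K (Matrix (Fin m) (Fin N) K))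
    (F : Fin k → Matrix (Fin m) (Fin N) K) (hF : LinearIndependent K F) (h : ∀ i, F i ∈ W) :
    k ≤ Module.finrank K W := by
  have h3 : LinearIndependent K (fun i : Fin k => (⟨F i, h i⟩ : W)) :=
    LinearIndependent.of_comp W.subtype hF
  have h4 := h3.fintype_card_le_finrank
  simpa using h4

end gen

/-- column `j` is column `i` of `A` -/
def dir (A : M27 K) (i j : Fin 7) : M27 K := Matrix.of fun r c => if c = j then A r i else 0

/-- `Γ_{ij}` -/
def gam (A : M27 K) (i j : Fin 7) (M : M27 K) : K := A 0 i * M 0 j + A 1 i * M 1 j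

theorem pr_dir (A M : M27 K) (i j : Fin 7) : pr (dir A i j) M = gam A i j M := by
  unfold pr dir gam
  rw [Fin.sum_univ_two]
  congr 1
  · rw [Finset.sum_eq_single j]
    · simp
    · intro c _ hc; simp [hc]
    · intro h; exact absurd (Finset.mem_univ _) h
  · rw [Finset.sum_eq_single j]
    · simp
    · intro c _ hc; simp [hc]
    · intro h; exact absurd (Finset.mem_univ _) h

theorem pr_add (B B' M : M27 K) : pr (B + B') M = pr B M + pr B' M := by
  simp only [pr, Matrix.add_apply, add_mul, Finset.sum_add_distrib]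

theorem pr_smul (c : K) (B M : M27 K) : pr (c • B) M = c * pr B M := by
  simp only [pr, Matrix.smul_apply, smul_eq_mul, Finset.mul_sum]
  refine Finset.sum_congr rfl (fun i _ => Finset.sum_congr rfl (fun j _ => by ring))

/-- invariance of the functions along the six linear directions -/
theorem vals_dir (A : M27 K) (t : K) :
    (Pf (A + t • dir A 1 2) = Pf A ∧ Af (A + t • dir A 1 2) = Af A ∧
      Bf (A + t • dir A 1 2) = Bf A) ∧
    (Pf (A + t • dir A 0 3) = Pf A ∧ Af (A + t • dir A 0 3) = Af A ∧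
      Bf (A + t • dir A 0 3) = Bf A) ∧
    (Pf (A + t • dir A 1 4) = Pf A ∧ Af (A + t • dir A 1 4) = Af A ∧
      Bf (A + t • dir A 1 4) = Bf A) ∧
    (Pf (A + t • dir A 0 5) = Pf A ∧ Af (A + t • dir A 0 5) = Af A ∧
      Bf (A + t • dir A 0 5) = Bf A) ∧
    (Pf (A + t • (dir A 0 2 + (-1 : K) • dir A 1 3)) = Pf A ∧
      Af (A + t • (dir A 0 2 + (-1 : K) • dir A 1 3)) = Af A ∧
      Bf (A + t • (dir A 0 2 + (-1 : K) • dir A 1 3)) = Bf A) ∧
    (Pf (A + t • (dir A 0 4 + (-1 : K) • dir A 1 5)) = Pf A ∧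
      Af (A + t • (dir A 0 4 + (-1 : K) • dir A 1 5)) = Af A ∧
      Bf (A + t • (dir A 0 4 + (-1 : K) • dir A 1 5)) = Bf A) := by
  simp [Pf, Af, Bf, dir]
  refine ⟨?_, ?_, ?_, ?_, ?_, ?_⟩ <;> ring


/-- `S` is defined by the values of the three functions -/
def Good (S : Set (M27 K)) : Prop :=
  ∀ A B : M27 K, A ∈ S → Pf B = Pf A → Af B = Af A → Bf B = Bf A → B 0 6 = 0 → B 1 6 = 0 → B ∈ S

theorem good_S0 : Good (S0 K) := by
  rintro A B ⟨h1, h2, h3, h4⟩ e1 e2 e3 e4 e5
  exact ⟨by rw [e1]; exact h1, e4, e5, by rw [e1, e2, e3]; exact h4⟩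

theorem good_Z0 : Good (Z0 K) := by
  rintro A B ⟨h1, h2, h3, h4, h5⟩ e1 e2 e3 e4 e5
  exact ⟨by rw [e1]; exact h1, e4, e5, by rw [e2]; exact h4, by rw [e3]; exact h5⟩

theorem gam_eqs [Infinite K] {S : Set (M27 K)} (hS : Good S) {A : M27 K} (hA : A ∈ S)
    (h0 : A 0 6 = 0) (h1 : A 1 6 = 0) {M : M27 K} (hM : M ∈ conormal S A) :
    gam A 1 2 M = 0 ∧ gam A 0 3 M = 0 ∧ gam A 1 4 M = 0 ∧ gam A 0 5 M = 0 ∧
    gam A 0 2 M = gam A 1 3 M ∧ gam A 0 4 M = gam A 1 5 M := by
  have key : ∀ B : M27 K, B 0 6 = 0 → B 1 6 = 0 →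
      (∀ t : K, Pf (A + t • B) = Pf A ∧ Af (A + t • B) = Af A ∧ Bf (A + t • B) = Bf A) →
      pr B M = 0 := by
    intro B b0 b1 hB
    refine conormal_le (prL B) (S := S) (A := A) (M := M) ?_ hM
    intro f hf
    refine pr_line hf A B ∅ Set.finite_empty ?_
    intro t _
    obtain ⟨e1, e2, e3⟩ := hB t
    refine hS A _ hA e1 e2 e3 ?_ ?_
    · simp [h0, b0]
    · simp [h1, b1]
  refine ⟨?_, ?_, ?_, ?_, ?_, ?_⟩
  · rw [← pr_dir]; exact key _ (by simp [dir]) (by simp [dir]) (fun t => (vals_dir A t).1)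
  · rw [← pr_dir]; exact key _ (by simp [dir]) (by simp [dir]) (fun t => (vals_dir A t).2.1)
  · rw [← pr_dir]; exact key _ (by simp [dir]) (by simp [dir]) (fun t => (vals_dir A t).2.2.1)
  · rw [← pr_dir]; exact key _ (by simp [dir]) (by simp [dir]) (fun t => (vals_dir A t).2.2.2.1)
  · have := key _ (by simp [dir]) (by simp [dir]) (fun t => (vals_dir A t).2.2.2.2.1)
    rw [pr_add, pr_smul, pr_dir, pr_dir] at this
    linear_combination this
  · have := key _ (by simp [dir]) (by simp [dir]) (fun t => (vals_dir A t).2.2.2.2.2)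
    rw [pr_add, pr_smul, pr_dir, pr_dir] at this
    linear_combination this

theorem vals_cusp (A : M27 K) (α β : K) :
    Pf (A + α • dir A 0 4 + β • dir A 0 2) = Pf A ∧
    Af (A + α • dir A 0 4 + β • dir A 0 2) = Af A + β * Pf A ∧
    Bf (A + α • dir A 0 4 + β • dir A 0 2) = Bf A + α * Pf A := by
  simp [Pf, Af, Bf, dir]
  refine ⟨?_, ?_⟩ <;> ring

/-- at the cusps -/
theorem gam_cusp [Infinite K] {A : M27 K} (hA : A ∈ Z0 K) {M : M27 K}
    (hM : M ∈ conormal (S0 K) A) : gam A 0 2 M = 0 ∧ gam A 0 4 M = 0 := by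
  obtain ⟨hP, h0, h1, ha, hb⟩ := hA
  have key : ∀ f, Van (S0 K) f → pr (dir A 0 4) (grad f A) = 0 ∧ pr (dir A 0 2) (grad f A) = 0 := by
    intro f hf
    refine pr_cusp hf A _ _ ∅ Set.finite_empty ?_
    intro t _
    obtain ⟨e1, e2, e3⟩ := vals_cusp A (t ^ 2) (t ^ 3)
    refine ⟨by rw [e1]; exact hP, by simp [dir, h0], by simp [dir, h1], ?_⟩
    rw [e1, e2, e3, ha, hb]; ring
  constructor
  · rw [← pr_dir]
    exact conormal_le (prL (dir A 0 2)) (fun f hf => (key f hf).2) hM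
  · rw [← pr_dir]
    exact conormal_le (prL (dir A 0 4)) (fun f hf => (key f hf).1) hM

/-- at the other points -/
theorem gam_curve [Infinite K] {A : M27 K} (hA : A ∈ S0 K) (hb : Bf A ≠ 0) {M : M27 K}
    (hM : M ∈ conormal (S0 K) A) :
    3 * (Af A / Bf A) ^ 2 * gam A 0 2 M + 2 * (Af A / Bf A) * gam A 0 4 M = 0 := by
  obtain ⟨hP, h0, h1, h4⟩ := hA
  set u := Af A / Bf A with hu
  have hu2 : u ^ 2 * Pf A = Bf A := by
    rw [hu]; field_simp; linear_combination h4
  have hu3 : u ^ 3 * Pf A = Af A := by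
    have : u * Bf A = Af A := by rw [hu]; field_simp
    rw [← this, ← hu2]; ring
  have key : ∀ f, Van (S0 K) f →
      pr ((2 * u) • dir A 0 4 + (3 * u ^ 2) • dir A 0 2) (grad f A) = 0 := by
    intro f hf
    refine pr_curve hf A _ (dir A 0 4 + (3 * u) • dir A 0 2) (dir A 0 2) ∅ Set.finite_empty ?_
    intro t _
    have e : A + t • ((2 * u) • dir A 0 4 + (3 * u ^ 2) • dir A 0 2) +
        t ^ 2 • (dir A 0 4 + (3 * u) • dir A 0 2) + t ^ 3 • dir A 0 2 =
        A + ((u + t) ^ 2 - u ^ 2) • dir A 0 4 + ((u + t) ^ 3 - u ^ 3) • dir A 0 2 := by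
      module
    rw [e]
    obtain ⟨e1, e2, e3⟩ := vals_cusp A ((u + t) ^ 2 - u ^ 2) ((u + t) ^ 3 - u ^ 3)
    refine ⟨by rw [e1]; exact hP, by simp [dir, h0], by simp [dir, h1], ?_⟩
    rw [e1, e2, e3, ← hu2, ← hu3]; ring
  have h := conormal_le (prL ((2 * u) • dir A 0 4 + (3 * u ^ 2) • dir A 0 2)) key hM
  change pr _ M = 0 at h
  rw [pr_add, pr_smul, pr_smul, pr_dir, pr_dir] at h
  linear_combination h

/-- a conormal vector with vanishing invariants is zero -/
theorem eq_zero_of_gam [Infinite K] {S : Set (M27 K)} (hS : Good S)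
    (hs : ∀ A ∈ S, ∀ g : Matrix (Fin 2) (Fin 2) K, g.det ≠ 0 → g * A ∈ S) {A : M27 K} (hA : A ∈ S)
    (hP : Pf A ≠ 0) (h0 : A 0 6 = 0) (h1 : A 1 6 = 0) {M : M27 K} (hM : M ∈ conormal S A)
    (g2 : gam A 0 2 M = 0) (g4 : gam A 0 4 M = 0) (m0 : M 0 6 = 0) (m1 : M 1 6 = 0) : M = 0 := by
  obtain ⟨k12, k03, k14, k05, k23, k45⟩ := gam_eqs hS hA h0 h1 hM
  rw [g2] at k23
  rw [g4] at k45
  have col : ∀ j, gam A 0 j M = 0 → gam A 1 j M = 0 → M 0 j = 0 ∧ M 1 j = 0 := by
    intro j a b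
    unfold gam at a b
    constructor
    · have : Pf A * M 0 j = 0 := by unfold Pf; linear_combination (A 1 1) * a - (A 1 0) * b
      exact (mul_eq_zero.1 this).resolve_left hP
    · have : Pf A * M 1 j = 0 := by unfold Pf; linear_combination (A 0 0) * b - (A 0 1) * a
      exact (mul_eq_zero.1 this).resolve_left hP
  obtain ⟨a2, b2⟩ := col 2 g2 k12
  obtain ⟨a3, b3⟩ := col 3 k03 k23.symm
  obtain ⟨a4, b4⟩ := col 4 g4 k14
  obtain ⟨a5, b5⟩ := col 5 k05 k45.symm
  have hc := conormal_cot hs hA hM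
  have row : ∀ i, M i 2 = 0 → M i 3 = 0 → M i 4 = 0 → M i 5 = 0 → M i 6 = 0 →
      M i 0 = 0 ∧ M i 1 = 0 := by
    intro i c2 c3 c4 c5 c6
    have e : ∀ r, A r 0 * M i 0 + A r 1 * M i 1 = 0 := by
      intro r
      have := congrFun (congrFun hc r) i
      rw [Matrix.mul_apply, Fin.sum_univ_seven] at this
      simp only [Matrix.transpose_apply, c2, c3, c4, c5, c6, mul_zero, add_zero,
        Matrix.zero_apply] at this
      exact this
    constructor
    · have : Pf A * M i 0 = 0 := by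
        unfold Pf; linear_combination (A 1 1) * e 0 - (A 0 1) * e 1
      exact (mul_eq_zero.1 this).resolve_left hP
    · have : Pf A * M i 1 = 0 := by
        unfold Pf; linear_combination (A 0 0) * e 1 - (A 1 0) * e 0
      exact (mul_eq_zero.1 this).resolve_left hP
  obtain ⟨z00, z01⟩ := row 0 a2 a3 a4 a5 m0
  obtain ⟨z10, z11⟩ := row 1 b2 b3 b4 b5 m1
  ext i j
  fin_cases i <;> fin_cases j <;> assumption


/-! ### dimensions -/

theorem finrank_Z0 [Infinite K] {A : M27 K} (hA : A ∈ Z0 K) :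
    Module.finrank K (conormal (S0 K) A) ≤ 2 := by
  have hA' := hA
  obtain ⟨hP, h0, h1, ha, hb⟩ := hA
  refine finrank_le_of_inj _ (LinearMap.pi (fun i : Fin 2 => (LinearMap.proj (6 : Fin 7)).comp
    (LinearMap.proj i : M27 K →ₗ[K] (Fin 7 → K)))) ?_
  intro M hM h
  obtain ⟨c2, c4⟩ := gam_cusp hA' hM
  exact eq_zero_of_gam good_S0 S0_stable (Z0_sub_S0 hA') hP h0 h1 hM c2 c4
    (congrFun h 0) (congrFun h 1)

end Pool.Agent.Q35.GR
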