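import Pool.Agent.Q35.GR.Ex2

set_option autoImplicit false

/-! Dimensions of the conormal spaces, the singular locus. -/

namespace Pool.Agent.Q35.GR

open MvPolynomial Matrix

variable {K : Type*} [Field K]

def gamL (A : M27 K) (i j : Fin 7) : M27 K →ₗ[K] K where
  toFun := gam A i j
  map_add' M M' := by simp only [gam, Matrix.add_apply]; ring
  map_smul' c M := by simp only [gam, Matrix.smul_apply, smul_eq_mul, RingHom.id_apply]; ring

def entL (i : Fin 2) (j : Fin 7) : M27 K →ₗ[K] K where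
  toFun M := M i j
  map_add' _ _ := rfl
  map_smul' _ _ := rfl

theorem finrank_S0 [Infinite K] [CharZero K] {A : M27 K} (hA : A ∈ S0 K) (hb : Bf A ≠ 0) :
    Module.finrank K (conormal (S0 K) A) ≤ 3 := by
  have hA' := hA
  obtain ⟨hP, h0, h1, h4⟩ := hA
  have ha : Af A ≠ 0 := by
    intro ha
    apply hb
    rw [ha] at h4
    have : Bf A ^ 3 = 0 := by linear_combination -h4
    exact pow_eq_zero_iff (by norm_num) |>.1 this
  refine finrank_le_of_inj _ (LinearMap.pi ![entL 0 6, entL 1 6, gamL A 0 2]) ?_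
  intro M hM h
  have m0 : M 0 6 = 0 := congrFun h 0
  have m1 : M 1 6 = 0 := congrFun h 1
  have c2 : gam A 0 2 M = 0 := congrFun h 2
  have hc := gam_curve hA' hb hM
  rw [c2, mul_zero, zero_add] at hc
  have c4 : gam A 0 4 M = 0 := by
    refine (mul_eq_zero.1 hc).resolve_left ?_
    exact mul_ne_zero two_ne_zero (div_ne_zero ha hb)
  exact eq_zero_of_gam good_S0 S0_stable hA' hP h0 h1 hM c2 c4 m0 m1

theorem finrank_conZ0 [Infinite K] {A : M27 K} (hA : A ∈ Z0 K) :
    Module.finrank K (conormal (Z0 K) A) ≤ 4 := by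
  have hA' := hA
  obtain ⟨hP, h0, h1, ha, hb⟩ := hA
  refine finrank_le_of_inj _ (LinearMap.pi ![entL 0 6, entL 1 6, gamL A 0 2, gamL A 0 4]) ?_
  intro M hM h
  exact eq_zero_of_gam good_Z0 Z0_stable hA' hP h0 h1 hM (congrFun h 2) (congrFun h 3)
    (congrFun h 0) (congrFun h 1)

theorem S0_frames : ∀ A ∈ S0 K, IsFrame A := fun _ hA => frame_of_Pf hA.1
theorem Z0_frames : ∀ A ∈ Z0 K, IsFrame A := fun _ hA => frame_of_Pf hA.1

/-- the origin of the chart -/
def O0 : M27 K := Matrix.of ![![1, 0, 0, 0, 0, 0, 0], ![0, 1, 0, 0, 0, 0, 0]]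
/-- a smooth point -/
def O1 : M27 K := Matrix.of ![![1, 0, 1, 0, 1, 0, 0], ![0, 1, 0, 0, 0, 0, 0]]

theorem O0_mem : O0 ∈ Z0 K := by
  refine ⟨?_, ?_, ?_, ?_, ?_⟩ <;> simp [O0, Pf, Af, Bf]

theorem O1_mem : O1 ∈ S0 K := by
  refine ⟨?_, ?_, ?_, ?_⟩ <;> simp [O1, Pf, Af, Bf]

theorem O1_Bf : Bf (O1 : M27 K) ≠ 0 := by simp [O1, Bf]

theorem isVariety_S [Infinite K] : IsVariety (clo (S0 K)) :=
  isVariety_clo S0_frames S0_stable ⟨O1, O1_mem⟩ S0_irred

theorem isVariety_Z [Infinite K] : IsVariety (clo (Z0 K)) :=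
  isVariety_clo Z0_frames Z0_stable ⟨O0, O0_mem⟩ Z0_irred

theorem finrank_S_le [Infinite K] [CharZero K] {A : M27 K} (hA : A ∈ clo (S0 K)) :
    Module.finrank K (conormal (clo (S0 K)) A) ≤ 3 := by
  rw [conormal_clo S0_frames]
  refine finrank_conormal_le (T' := S0 K ∩ {A | Bf A ≠ 0}) (fun B hB => finrank_S0 hB.1 hB.2) A ?_
  intro f hf
  apply hA.2
  have h1 : Van (S0 K) (f * Bp) := by
    intro B hB
    rw [ev_mul, ev_Bp]
    by_cases h : Bf B = 0
    · rw [h, mul_zero]
    · rw [hf B ⟨hB, h⟩, zero_mul]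
  rcases S0_irred _ _ h1 with h | h
  · exact h
  · exfalso
    have := h O1 O1_mem
    rw [ev_Bp] at this
    exact O1_Bf this

theorem finrank_Z_le [Infinite K] {A : M27 K} (hA : A ∈ clo (Z0 K)) :
    Module.finrank K (conormal (clo (S0 K)) A) ≤ 2 := by
  rw [conormal_clo S0_frames]
  exact finrank_conormal_le (T' := Z0 K) (fun B hB => finrank_Z0 hB) A hA.2

theorem finrank_conZ_le [Infinite K] {A : M27 K} (hA : A ∈ clo (Z0 K)) :
    Module.finrank K (conormal (clo (Z0 K)) A) ≤ 4 := by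
  rw [conormal_clo Z0_frames]
  exact finrank_conormal_le (T' := Z0 K) (fun B hB => finrank_conZ0 hB) A hA.2

/-- the matrix unit -/
def eU (i : Fin 2) (j : Fin 7) : M27 K := Matrix.of fun r c => if (r, c) = (i, j) then 1 else 0

theorem grad_X' (i : Fin 2) (j : Fin 7) (A : M27 K) : grad (X (i, j)) A = eU i j := by
  ext r c
  rw [grad_X]
  rfl

theorem eU_mem_S (A : M27 K) (i : Fin 2) : (eU i 6 : M27 K) ∈ conormal (S0 K) A := by
  rw [← grad_X' i 6 A]
  refine grad_mem ?_ A
  intro B hB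
  rw [ev_X]
  fin_cases i
  · exact hB.2.1
  · exact hB.2.2.1

theorem eU_mem_Z (A : M27 K) (i : Fin 2) : (eU i 6 : M27 K) ∈ conormal (Z0 K) A := by
  rw [← grad_X' i 6 A]
  refine grad_mem ?_ A
  intro B hB
  rw [ev_X]
  fin_cases i
  · exact hB.2.1
  · exact hB.2.2.1

theorem van_Fp : Van (S0 K) Fp := by
  intro A hA
  rw [ev_Fp]
  linear_combination hA.2.2.2

theorem grad_Fp (A : M27 K) (i : Fin 2) (j : Fin 7) : grad Fp A i j =
    2 * Af A * Pf A * grad Ap A i j + Af A * Af A * grad Pp A i j -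
      3 * Bf A * Bf A * grad Bp A i j := by
  unfold Fp
  rw [grad_sub, grad_mul, grad_mul, grad_mul, grad_mul, ev_Ap, ev_Bp, ev_mul, ev_mul, ev_Ap, ev_Pp,
    ev_Bp]
  ring

theorem grad_vals (A : M27 K) :
    (grad Ap A 0 2 = A 1 1 ∧ grad Bp A 0 2 = 0 ∧ grad Pp A 0 2 = 0) ∧
    (grad Ap A 1 2 = -A 0 1 ∧ grad Bp A 1 2 = 0 ∧ grad Pp A 1 2 = 0) := by
  simp [Ap, Bp, Pp, grad_sub, grad_add, grad_mul, grad_X, ev_X]

/-- three independent conormal vectors at the points outside of `Z` -/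
theorem finrank_S0_ge [CharZero K] {A : M27 K} (hA : A ∈ S0 K) (hb : Bf A ≠ 0) :
    3 ≤ Module.finrank K (conormal (S0 K) A) := by
  obtain ⟨hP, h0, h1, h4⟩ := hA
  have ha : Af A ≠ 0 := by
    intro ha
    apply hb
    rw [ha] at h4
    have : Bf A ^ 3 = 0 := by linear_combination -h4
    exact pow_eq_zero_iff (by norm_num) |>.1 this
  refine finrank_ge_of_indep _ ![eU 0 6, eU 1 6, grad Fp A] ?_ ?_
  · rw [Fintype.linearIndependent_iff]
    intro g hg
    rw [Fin.sum_univ_three] at hg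
    simp only [Matrix.cons_val_zero, Matrix.cons_val_one, Matrix.cons_val] at hg
    obtain ⟨⟨a1, a2, a3⟩, ⟨b1, b2, b3⟩⟩ := grad_vals A
    have e1 := congrFun (congrFun hg 0) 2
    have e2 := congrFun (congrFun hg 1) 2
    have e3 := congrFun (congrFun hg 0) 6
    have e4 := congrFun (congrFun hg 1) 6
    simp only [Matrix.add_apply, Matrix.smul_apply, smul_eq_mul, grad_Fp, a1, a2, a3, b1, b2, b3,
      Matrix.zero_apply] at e1 e2
    simp [eU] at e1 e2
    have hg2 : g 2 = 0 := by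
      by_contra hne
      have f1 : A 1 1 = 0 := by
        rcases e1 with h | h
        · exact absurd h hne
        · rcases h with h | h
          · rcases h with h | h
            · exact absurd h ha
            · exact absurd h hP
          · exact h
      have f2 : A 0 1 = 0 := by
        rcases e2 with h | h
        · exact absurd h hne
        · rcases h with h | h
          · rcases h with h | h
            · exact absurd h ha
            · exact absurd h hP
          · exact h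
      apply hP
      unfold Pf
      rw [f1, f2]; ring
    rw [hg2] at e3 e4
    simp [eU] at e3 e4
    intro i
    fin_cases i
    · exact e3
    · exact e4
    · exact hg2
  · intro i
    fin_cases i
    · exact eU_mem_S A 0
    · exact eU_mem_S A 1
    · exact grad_mem van_Fp A

end Pool.Agent.Q35.GR
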