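import Pool.Agent.Q35.GR.Ex3

set_option autoImplicit false

/-! The singular locus, and the coisotropy of the big variety. -/

namespace Pool.Agent.Q35.GR

open MvPolynomial Matrix

variable {K : Type*} [Field K]

theorem finrank_of_smooth [Infinite K] [CharZero K] {A : M27 K} (hA : Smooth (clo (S0 K)) A) :
    Module.finrank K (conormal (clo (S0 K)) A) = 3 := by
  apply le_antisymm (finrank_S_le hA.1)
  have h1 := hA.2 O1 (subset_clo S0_frames O1_mem)
  have h2 := finrank_S0_ge (K := K) O1_mem O1_Bf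
  rw [← conormal_clo S0_frames] at h2
  exact h2.trans h1

theorem clo_Z_sub : clo (Z0 K) ⊆ clo (S0 K) := by
  intro A hA
  refine ⟨hA.1, fun f hf => hA.2 f (fun B hB => hf B (Z0_sub_S0 hB))⟩

theorem Z_sub_Sing [Infinite K] [CharZero K] : clo (Z0 K) ⊆ Sing (clo (S0 K)) := by
  intro A hA
  refine ⟨clo_Z_sub hA, fun h => ?_⟩
  have h1 := finrank_of_smooth h
  have h2 := finrank_Z_le hA
  omega

theorem mem_S0_of_clo {A : M27 K} (hA : A ∈ clo (S0 K)) (hP : Pf A ≠ 0) : A ∈ S0 K := by
  refine ⟨hP, ?_, ?_, ?_⟩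
  · have := hA.2 (X (0, 6)) (fun B hB => by rw [ev_X]; exact hB.2.1)
    rwa [ev_X] at this
  · have := hA.2 (X (1, 6)) (fun B hB => by rw [ev_X]; exact hB.2.2.1)
    rwa [ev_X] at this
  · have := hA.2 Fp van_Fp
    rw [ev_Fp] at this
    linear_combination this

theorem Sing_sub [Infinite K] [CharZero K] {A : M27 K} (hA : A ∈ Sing (clo (S0 K)))
    (hP : Pf A ≠ 0) : A ∈ Z0 K := by
  have h1 := mem_S0_of_clo hA.1 hP
  by_cases hb : Bf A = 0
  · refine ⟨hP, h1.2.1, h1.2.2.1, ?_, hb⟩
    have h4 := h1.2.2.2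
    rw [hb] at h4
    have h5 : Af A * Af A * Pf A = 0 := by rw [h4]; ring
    rcases mul_eq_zero.1 h5 with h | h
    · exact (mul_self_eq_zero.1 h)
    · exact absurd h hP
  · exfalso
    apply hA.2
    refine ⟨hA.1, fun B hB => ?_⟩
    refine (finrank_S_le hB).trans ?_
    rw [conormal_clo S0_frames]
    exact finrank_S0_ge h1 hb

theorem isComponent_Z [Infinite K] [CharZero K] : IsComponent (clo (Z0 K)) (Sing (clo (S0 K))) := by
  refine ⟨isVariety_Z, Z_sub_Sing, ?_⟩
  intro Y hY hZY hYS
  apply Set.Subset.antisymm _ hZY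
  intro A hA
  refine ⟨hY.frames A hA, fun f hf => ?_⟩
  have h1 : Van Y (f * Pp) := by
    intro B hB
    rw [ev_mul, ev_Pp]
    by_cases h : Pf B = 0
    · rw [h, mul_zero]
    · rw [hf B (Sing_sub (hYS hB) h), zero_mul]
  rcases hY.irreducible _ _ h1 with h | h
  · exact h A hA
  · exfalso
    have h2 := h O0 (hZY (subset_clo Z0_frames O0_mem))
    rw [ev_Pp] at h2
    exact O0_mem.1 h2

/-- the matrix with row `i` equal to `v` -/
def rw1 (i : Fin 2) (v : Fin 7 → K) : M27 K := Matrix.of fun r c => if r = i then v c else 0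

theorem rank_one_of {m N : ℕ} (u : Fin m → K) (v : Fin N → K) (h : vecMulVec u v ≠ 0) :
    (vecMulVec u v).rank = 1 := by
  apply le_antisymm (rank_vecMulVec_le u v)
  by_contra hcon
  apply h
  have h0 : (vecMulVec u v).rank = 0 := by omega
  rw [rank_eq_finrank_span_row, Submodule.finrank_eq_zero, Submodule.span_eq_bot] at h0
  ext i j
  exact congrFun (h0 _ ⟨i, rfl⟩) j

/-- the family of bases -/
noncomputable def fam (φ : M27 K) (t : K) : Fin 3 → M27 K :=
  ![eU 0 6 + t • rw1 0 (φ 0), eU 1 6 + t • rw1 1 (φ 1), φ]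

theorem fam_indep {φ : M27 K} (hφ : φ ≠ 0) (h0 : φ 0 6 = 0) (h1 : φ 1 6 = 0) (t : K) :
    LinearIndependent K (fam φ t) := by
  rw [Fintype.linearIndependent_iff]
  intro g hg
  rw [Fin.sum_univ_three] at hg
  simp only [fam, Matrix.cons_val_zero, Matrix.cons_val_one, Matrix.cons_val] at hg
  have e0 := congrFun (congrFun hg 0) 6
  have e1 := congrFun (congrFun hg 1) 6
  simp [eU, rw1, h0, h1] at e0 e1
  rw [e0, e1, zero_smul, zero_smul, zero_add, zero_add] at hg
  have e2 : g 2 = 0 := (smul_eq_zero.1 hg).resolve_right hφ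
  intro i
  fin_cases i
  · exact e0
  · exact e1
  · exact e2

theorem fam_R {A φ : M27 K} (hφ : φ ≠ 0) (h0 : φ 0 6 = 0) (h1 : φ 1 6 = 0)
    (hA : A * φ.transpose = 0) (a0 : A 0 6 = 0) (a1 : A 1 6 = 0) {t : K} (ht : t ≠ 0) :
    fam φ t ∈ RFrames A 3 := by
  refine ⟨fam_indep hφ h0 h1 t, ![fam φ t 0, fam φ t 1, eU 0 6 + eU 1 6], ?_, ?_⟩
  · have hr : ∀ i r, ∑ c, A r c * φ i c = 0 := by
      intro i r
      have := congrFun (congrFun hA r) i
      rwa [Matrix.mul_apply] at this
    have hr' : ∀ i r, A r 0 * φ i 0 + A r 1 * φ i 1 + A r 2 * φ i 2 + A r 3 * φ i 3 +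
        A r 4 * φ i 4 + A r 5 * φ i 5 + A r 6 * φ i 6 = 0 := by
      intro i r
      have := hr i r
      rwa [Fin.sum_univ_seven] at this
    have hc : ∀ r, A r 6 = 0 := by
      intro r; fin_cases r
      · exact a0
      · exact a1
    intro i
    fin_cases i
    · constructor
      · ext r s
        change (A * (fam φ t 0).transpose) r s = 0
        rw [Matrix.mul_apply, Fin.sum_univ_seven]
        fin_cases s
        · simp [fam, eU, rw1, hc]
          linear_combination t * hr' 0 r - t * φ 0 6 * hc r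
        · simp [fam, eU, rw1]
      · change (fam φ t 0).rank = 1
        have e : fam φ t 0 = vecMulVec ![1, 0] ((Pi.single 6 1 : Fin 7 → K) + t • φ 0) := by
          ext r c
          fin_cases r
          · simp [fam, eU, rw1, vecMulVec_apply, Pi.single_apply]
          · simp [fam, eU, rw1, vecMulVec_apply]
        rw [e]
        apply rank_one_of
        intro h
        have := congrFun (congrFun h 0) 6
        simp [vecMulVec_apply, h0] at this
    · constructor
      · ext r s
        change (A * (fam φ t 1).transpose) r s = 0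
        rw [Matrix.mul_apply, Fin.sum_univ_seven]
        fin_cases s
        · simp [fam, eU, rw1]
        · simp [fam, eU, rw1, hc]
          linear_combination t * hr' 1 r - t * φ 1 6 * hc r
      · change (fam φ t 1).rank = 1
        have e : fam φ t 1 = vecMulVec ![0, 1] ((Pi.single 6 1 : Fin 7 → K) + t • φ 1) := by
          ext r c
          fin_cases r
          · simp [fam, eU, rw1, vecMulVec_apply]
          · simp [fam, eU, rw1, vecMulVec_apply, Pi.single_apply]
        rw [e]
        apply rank_one_of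
        intro h
        have := congrFun (congrFun h 1) 6
        simp [vecMulVec_apply, h1] at this
    · constructor
      · ext r s
        change (A * (eU 0 6 + eU 1 6 : M27 K).transpose) r s = 0
        rw [Matrix.mul_apply, Fin.sum_univ_seven]
        fin_cases s <;> simp [eU, hc]
      · change (eU 0 6 + eU 1 6 : M27 K).rank = 1
        have e : (eU 0 6 + eU 1 6 : M27 K) = vecMulVec ![1, 1] (Pi.single 6 1 : Fin 7 → K) := by
          ext r c
          fin_cases r
          · simp [eU, vecMulVec_apply, Pi.single_apply]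
          · simp [eU, vecMulVec_apply, Pi.single_apply]
        rw [e]
        apply rank_one_of
        intro h
        have := congrFun (congrFun h 1) 6
        simp [vecMulVec_apply] at this
  · have hsum : fam φ t 0 + fam φ t 1 = (eU 0 6 + eU 1 6) + t • φ := by
      ext r c
      fin_cases r
      · simp [fam, eU, rw1]
      · simp [fam, eU, rw1]
    apply le_antisymm
    · rw [Submodule.span_le]
      rintro _ ⟨i, rfl⟩
      have m0 : fam φ t 0 ∈ Submodule.span K
          (Set.range ![fam φ t 0, fam φ t 1, eU 0 6 + eU 1 6]) := Submodule.subset_span ⟨0, rfl⟩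
      have m1 : fam φ t 1 ∈ Submodule.span K
          (Set.range ![fam φ t 0, fam φ t 1, eU 0 6 + eU 1 6]) := Submodule.subset_span ⟨1, rfl⟩
      have m2 : (eU 0 6 + eU 1 6 : M27 K) ∈ Submodule.span K
          (Set.range ![fam φ t 0, fam φ t 1, eU 0 6 + eU 1 6]) := Submodule.subset_span ⟨2, rfl⟩
      fin_cases i
      · exact m0
      · exact m1
      · change φ ∈ _
        have e : φ = t⁻¹ • (fam φ t 0 + fam φ t 1 - (eU 0 6 + eU 1 6)) := by
          rw [hsum, add_sub_cancel_left, smul_smul, inv_mul_cancel₀ ht, one_smul]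
        have m3 := Submodule.smul_mem _ t⁻¹ (Submodule.sub_mem _ (Submodule.add_mem _ m0 m1) m2)
        rwa [← e] at m3
    · rw [Submodule.span_le]
      rintro _ ⟨i, rfl⟩
      have m0 : fam φ t 0 ∈ Submodule.span K (Set.range (fam φ t)) := Submodule.subset_span ⟨0, rfl⟩
      have m1 : fam φ t 1 ∈ Submodule.span K (Set.range (fam φ t)) := Submodule.subset_span ⟨1, rfl⟩
      have m2 : φ ∈ Submodule.span K (Set.range (fam φ t)) := Submodule.subset_span ⟨2, rfl⟩
      fin_cases i
      · exact m0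
      · exact m1
      · change (eU 0 6 + eU 1 6 : M27 K) ∈ _
        have e : (eU 0 6 + eU 1 6 : M27 K) = fam φ t 0 + fam φ t 1 - t • φ := by
          rw [hsum, add_sub_cancel_right]
        rw [e]
        exact Submodule.sub_mem _ (Submodule.add_mem _ m0 m1) (Submodule.smul_mem _ _ m2)

theorem fam_closure [Infinite K] {A φ : M27 K} (hφ : φ ≠ 0) (h0 : φ 0 6 = 0) (h1 : φ 1 6 = 0)
    (hA : A * φ.transpose = 0) (a0 : A 0 6 = 0) (a1 : A 1 6 = 0)
    (P : MvPolynomial (Fin 3 × Fin 2 × Fin 7) K)
    (hP : ∀ G ∈ RFrames A 3, eval (fun s => G s.1 s.2.1 s.2.2) P = 0) :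
    eval (fun s => fam φ 0 s.1 s.2.1 s.2.2) P = 0 := by
  set c : Fin 3 × Fin 2 × Fin 7 → Polynomial K := fun s =>
    Polynomial.C (fam φ 0 s.1 s.2.1 s.2.2) +
      Polynomial.X * Polynomial.C ((![rw1 0 (φ 0), rw1 1 (φ 1), 0] : Fin 3 → M27 K) s.1 s.2.1 s.2.2)
    with hc
  have hct : ∀ t : K, (fun s => (c s).eval t) = fun s => fam φ t s.1 s.2.1 s.2.2 := by
    intro t
    funext s
    have e : ∀ k : Fin 3, fam φ 0 k + t • (![rw1 0 (φ 0), rw1 1 (φ 1), 0] : Fin 3 → M27 K) k =
        fam φ t k := by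
      intro k
      fin_cases k
      · change eU 0 6 + (0 : K) • rw1 0 (φ 0) + t • rw1 0 (φ 0) = eU 0 6 + t • rw1 0 (φ 0)
        rw [zero_smul, add_zero]
      · change eU 1 6 + (0 : K) • rw1 1 (φ 1) + t • rw1 1 (φ 1) = eU 1 6 + t • rw1 1 (φ 1)
        rw [zero_smul, add_zero]
      · change φ + t • (0 : M27 K) = φ
        rw [smul_zero, add_zero]
    rw [hc]
    simp only [Polynomial.eval_add, Polynomial.eval_mul, Polynomial.eval_C, Polynomial.eval_X]
    rw [← e s.1]
    rfl
  have h2 : aeval c P = 0 := by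
    refine aeval_eq_zero P c {0} (Set.finite_singleton 0) ?_
    intro t ht
    rw [hct]
    exact hP _ (fam_R hφ h0 h1 hA a0 a1 ht)
  have h3 := eval_aeval P c 0
  rw [h2, hct] at h3
  simpa using h3.symm

theorem coisotropic_S [Infinite K] [CharZero K] : Coisotropic (clo (S0 K)) := by
  intro A hA
  have h3 := finrank_of_smooth hA
  rw [h3]
  have a0 : A 0 6 = 0 := by
    have := hA.1.2 (X (0, 6)) (fun B hB => by rw [ev_X]; exact hB.2.1)
    rwa [ev_X] at this
  have a1 : A 1 6 = 0 := by
    have := hA.1.2 (X (1, 6)) (fun B hB => by rw [ev_X]; exact hB.2.2.1)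
    rwa [ev_X] at this
  have e0 : (eU 0 6 : M27 K) ∈ conormal (clo (S0 K)) A := by
    rw [conormal_clo S0_frames]; exact eU_mem_S A 0
  have e1 : (eU 1 6 : M27 K) ∈ conormal (clo (S0 K)) A := by
    rw [conormal_clo S0_frames]; exact eU_mem_S A 1
  obtain ⟨φ, hφm, hφ, p0, p1⟩ : ∃ φ ∈ conormal (clo (S0 K)) A, φ ≠ 0 ∧ φ 0 6 = 0 ∧ φ 1 6 = 0 := by
    by_contra hcon
    push Not at hcon
    have h4 : Module.finrank K (conormal (clo (S0 K)) A) ≤ 2 := by
      refine finrank_le_of_inj _ (LinearMap.pi ![entL 0 6, entL 1 6]) ?_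
      intro M hM h
      by_contra hne
      exact hcon M hM hne (congrFun h 0) (congrFun h 1)
    omega
  have hc : A * φ.transpose = 0 := conormal_cot isVariety_S.stable hA.1 hφm
  refine ⟨fam φ 0, fam_indep hφ p0 p1 0, ?_, ?_⟩
  · apply Submodule.eq_of_le_of_finrank_eq
    · rw [Submodule.span_le]
      rintro _ ⟨i, rfl⟩
      fin_cases i
      · simpa [fam] using e0
      · simpa [fam] using e1
      · exact hφm
    · rw [h3, finrank_span_eq_card (fam_indep hφ p0 p1 0)]
      simp
  · intro P hP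
    exact fam_closure hφ p0 p1 hc a0 a1 P hP

end Pool.Agent.Q35.GR
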