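import Pool.Agent.Q35.GR.Ex4

set_option autoImplicit false

/-! The small variety is not coisotropic. -/

namespace Pool.Agent.Q35.GR

open MvPolynomial Matrix

variable {K : Type*} [Field K]

theorem van_Ap : Van (Z0 K) Ap := by
  intro A hA
  rw [ev_Ap]
  exact hA.2.2.2.1

theorem van_Bp : Van (Z0 K) Bp := by
  intro A hA
  rw [ev_Bp]
  exact hA.2.2.2.2

theorem grad_Ap_O0 : grad (Ap : P27 K) O0 = eU 0 2 + eU 1 3 := by
  ext r c
  fin_cases r <;> fin_cases c <;>
    simp [Ap, grad_sub, grad_add, grad_mul, grad_X, ev_X, O0, eU]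

theorem grad_Bp_O0 : grad (Bp : P27 K) O0 = eU 0 4 + eU 1 5 := by
  ext r c
  fin_cases r <;> fin_cases c <;>
    simp [Bp, grad_sub, grad_add, grad_mul, grad_X, ev_X, O0, eU]

theorem mem_conZ : (eU 0 6 : M27 K) ∈ conormal (clo (Z0 K)) O0 ∧
    (eU 1 6 : M27 K) ∈ conormal (clo (Z0 K)) O0 ∧
    (eU 0 2 + eU 1 3 : M27 K) ∈ conormal (clo (Z0 K)) O0 ∧
    (eU 0 4 + eU 1 5 : M27 K) ∈ conormal (clo (Z0 K)) O0 := by
  rw [conormal_clo Z0_frames]
  refine ⟨eU_mem_Z O0 0, eU_mem_Z O0 1, ?_, ?_⟩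
  · rw [← grad_Ap_O0]; exact grad_mem van_Ap O0
  · rw [← grad_Bp_O0]; exact grad_mem van_Bp O0

theorem finrank_O0 [Infinite K] : Module.finrank K (conormal (clo (Z0 K)) O0) = 4 := by
  apply le_antisymm (finrank_conZ_le (subset_clo Z0_frames O0_mem))
  obtain ⟨m1, m2, m3, m4⟩ := mem_conZ (K := K)
  refine finrank_ge_of_indep _ ![eU 0 6, eU 1 6, eU 0 2 + eU 1 3, eU 0 4 + eU 1 5] ?_ ?_
  · rw [Fintype.linearIndependent_iff]
    intro g hg
    rw [Fin.sum_univ_four] at hg
    simp only [Matrix.cons_val_zero, Matrix.cons_val_one, Matrix.cons_val] at hg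
    have e1 := congrFun (congrFun hg 0) 6
    have e2 := congrFun (congrFun hg 1) 6
    have e3 := congrFun (congrFun hg 0) 2
    have e4 := congrFun (congrFun hg 0) 4
    simp [eU] at e1 e2 e3 e4
    intro i
    fin_cases i
    · exact e1
    · exact e2
    · exact e3
    · exact e4
  · intro i
    fin_cases i
    · exact m1
    · exact m2
    · exact m3
    · exact m4

theorem smooth_O0 [Infinite K] : Smooth (clo (Z0 K)) O0 := by
  refine ⟨subset_clo Z0_frames O0_mem, fun B hB => ?_⟩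
  rw [finrank_O0]
  exact finrank_conZ_le hB

theorem vec_of_rank_one {E : M27 K} (h : E.rank = 1) :
    ∃ (u : Fin 2 → K) (v : Fin 7 → K), ∀ i j, E i j = u i * v j := by
  rw [rank_eq_finrank_span_row, finrank_eq_one_iff'] at h
  obtain ⟨v, -, hv⟩ := h
  choose u hu using fun i : Fin 2 => hv ⟨E.row i, Submodule.subset_span ⟨i, rfl⟩⟩
  refine ⟨u, v.1, fun i j => ?_⟩
  have := congrArg Subtype.val (hu i)
  have h2 := congrFun this j
  simp only [Submodule.coe_smul, Pi.smul_apply, smul_eq_mul, Matrix.row_apply] at h2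
  exact h2.symm

/-- the minors of the rows -/
noncomputable def minor (s : Fin 5 → Fin 4 × Fin 2) (d : Fin 5 → Fin 7) :
    MvPolynomial (Fin 4 × Fin 2 × Fin 7) K :=
  (Matrix.of (fun i j : Fin 5 => X ((s j).1, (s j).2, d i))).det

theorem eval_minor (s : Fin 5 → Fin 4 × Fin 2) (d : Fin 5 → Fin 7) (F : Fin 4 → M27 K) :
    eval (fun s => F s.1 s.2.1 s.2.2) (minor s d) =
      (Matrix.of (fun i j : Fin 5 => F (s j).1 (s j).2 (d i))).det := by
  rw [minor, RingHom.map_det]
  congr 1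
  ext i j
  simp

theorem minor_zero (s : Fin 5 → Fin 4 × Fin 2) (d : Fin 5 → Fin 7) (A : M27 K)
    (G : Fin 4 → M27 K) (hG : G ∈ RFrames A 4) :
    eval (fun s => G s.1 s.2.1 s.2.2) (minor s d) = 0 := by
  obtain ⟨-, E, hE, hsp⟩ := hG
  choose u v huv using fun i => vec_of_rank_one (hE i).2
  have h1 : ∀ k, ∃ c : Fin 4 → K, ∑ i, c i • E i = G k := by
    intro k
    have : G k ∈ Submodule.span K (Set.range E) := by
      rw [← hsp]; exact Submodule.subset_span ⟨k, rfl⟩
    exact (Submodule.mem_span_range_iff_exists_fun K).1 this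
  choose c hc using h1
  rw [eval_minor]
  have e : (Matrix.of (fun i j : Fin 5 => G (s j).1 (s j).2 (d i))) =
      (Matrix.of (fun (i : Fin 5) (k : Fin 4) => v k (d i))) *
      (Matrix.of (fun (k : Fin 4) (j : Fin 5) => c (s j).1 k * u k (s j).2)) := by
    ext i j
    rw [Matrix.mul_apply, Matrix.of_apply, ← hc (s j).1]
    simp only [Matrix.sum_apply, Matrix.smul_apply, smul_eq_mul, Matrix.of_apply]
    refine Finset.sum_congr rfl (fun k _ => ?_)
    rw [huv]
    ring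
  by_contra hne
  have h5 : (Matrix.of (fun i j : Fin 5 => G (s j).1 (s j).2 (d i))).rank = 5 := by
    rw [rank_of_isUnit _ ((isUnit_iff_isUnit_det _).2 (isUnit_iff_ne_zero.2 hne))]
    simp
  rw [e] at h5
  have h6 := rank_mul_le_left (Matrix.of (fun (i : Fin 5) (k : Fin 4) => v k (d i)))
    (Matrix.of (fun (k : Fin 4) (j : Fin 5) => c (s j).1 k * u k (s j).2))
  have h7 := rank_le_width (Matrix.of (fun (i : Fin 5) (k : Fin 4) => v k (d i)))
  omega

theorem not_coisotropic_Z [Infinite K] : ¬ Coisotropic (clo (Z0 K)) := by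
  intro hcon
  have h := hcon O0 smooth_O0
  rw [finrank_O0] at h
  obtain ⟨F, -, hsp, hF⟩ := h
  have hdep : ¬ LinearIndependent K (fun (b : Fin 5) (p : Fin 4 × Fin 2) =>
      F p.1 p.2 (![2, 3, 4, 5, 6] b)) := by
    intro hli
    obtain ⟨s, hs⟩ := exists_minor _ hli
    apply hs
    have h1 := hF (minor s ![2, 3, 4, 5, 6]) (fun G hG => minor_zero s _ O0 G hG)
    rw [eval_minor] at h1
    exact h1
  rw [Fintype.not_linearIndependent_iff] at hdep
  obtain ⟨g, hg, i, hi⟩ := hdep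
  set L : Fin 2 → (M27 K →ₗ[K] K) := fun r =>
    g 0 • entL r 2 + g 1 • entL r 3 + g 2 • entL r 4 + g 3 • entL r 5 + g 4 • entL r 6 with hL
  have hLM : ∀ r, ∀ M ∈ conormal (clo (Z0 K)) O0, L r M = 0 := by
    intro r M hM
    have hle : conormal (clo (Z0 K)) O0 ≤ LinearMap.ker (L r) := by
      rw [← hsp, Submodule.span_le]
      rintro _ ⟨k, rfl⟩
      have := congrFun hg (k, r)
      rw [Fin.sum_univ_five] at this
      exact this
    exact hle hM
  obtain ⟨m1, m2, m3, m4⟩ := mem_conZ (K := K)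
  have hLv : ∀ r M, L r M = g 0 * M r 2 + g 1 * M r 3 + g 2 * M r 4 + g 3 * M r 5 + g 4 * M r 6 :=
    fun r M => rfl
  have q4 := hLM 0 _ m1
  have q0 := hLM 0 _ m3
  have q1 := hLM 1 _ m3
  have q2 := hLM 0 _ m4
  have q3 := hLM 1 _ m4
  rw [hLv] at q0 q1 q2 q3 q4
  simp [eU] at q0 q1 q2 q3 q4
  apply hi
  fin_cases i
  · exact q0
  · exact q1
  · exact q2
  · exact q3
  · exact q4

end Pool.Agent.Q35.GR
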