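import Pool.Agent.Q35.GR.Alg

set_option autoImplicit false

/-! Minors, semicontinuity of the rank of the conormal space, stability. -/

namespace Pool.Agent.Q35.GR

open MvPolynomial Matrix

variable {K : Type*} [Field K]

theorem exists_minor {a : ℕ} {ι : Type*} [Fintype ι] (v : Fin a → ι → K)
    (h : LinearIndependent K v) : ∃ s : Fin a → ι, (Matrix.of (fun i j => v i (s j))).det ≠ 0 := by
  set V : Matrix (Fin a) ι K := Matrix.of v with hV
  have hr : V.rank = a := by
    have := LinearIndependent.rank_matrix (M := V) h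
    simpa using this
  obtain ⟨f, hf, _, hli⟩ := Submodule.exists_fun_fin_finrank_span_eq K (Set.range V.col)
  rw [rank_eq_finrank_span_cols] at hr
  choose c hc using hf
  refine ⟨c ∘ Fin.cast hr.symm, ?_⟩
  have hli2 : LinearIndependent K (fun j : Fin a => V.col (c (Fin.cast hr.symm j))) := by
    have e : (fun j : Fin a => V.col (c (Fin.cast hr.symm j))) = f ∘ Fin.cast hr.symm := by
      funext i
      rw [Function.comp_apply, ← hc]
    rw [e]
    exact hli.comp _ (Fin.cast_injective _)
  have h3 : LinearIndependent K (Matrix.of (fun i j => v i (c (Fin.cast hr.symm j)))).col := hli2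
  rw [linearIndependent_cols_iff_isUnit, isUnit_iff_isUnit_det] at h3
  exact h3.ne_zero

variable {m N : ℕ}

/-- a matrix as a vector -/
def flat : Matrix (Fin m) (Fin N) K →ₗ[K] (Fin m × Fin N → K) where
  toFun M s := M s.1 s.2
  map_add' _ _ := rfl
  map_smul' _ _ := rfl

theorem flat_inj : Function.Injective (flat : Matrix (Fin m) (Fin N) K →ₗ[K] _) := by
  intro A B h
  funext i j
  exact congrFun h (i, j)

theorem finrank_conormal_le {T T' : Set (Matrix (Fin m) (Fin N) K)} {r : ℕ}
    (h : ∀ B ∈ T', Module.finrank K (conormal T B) ≤ r) (B : Matrix (Fin m) (Fin N) K)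
    (hB : ∀ f, Van T' f → ev f B = 0) : Module.finrank K (conormal T B) ≤ r := by
  by_contra hcon
  push Not at hcon
  obtain ⟨F, hF, _, hli⟩ := Submodule.exists_fun_fin_finrank_span_eq K
    {M | ∃ f, Van T f ∧ M = grad f B}
  choose g hg hgF using hF
  have hle : r + 1 ≤ Module.finrank K (Submodule.span K {M | ∃ f, Van T f ∧ M = grad f B}) := hcon
  have hli1 : LinearIndependent K (fun i : Fin (r + 1) => flat (F (Fin.castLE hle i))) :=
    (hli.comp _ (Fin.castLE_injective hle)).map' flat (LinearMap.ker_eq_bot.2 flat_inj)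
  obtain ⟨s, hs⟩ := exists_minor _ hli1
  set D : MvPolynomial (Fin m × Fin N) K :=
    (Matrix.of (fun i j : Fin (r + 1) => pderiv (s j) (g (Fin.castLE hle i)))).det with hD
  have evD : ∀ C : Matrix (Fin m) (Fin N) K, ev D C =
      (Matrix.of (fun i j : Fin (r + 1) => flat (grad (g (Fin.castLE hle i)) C) (s j))).det := by
    intro C
    unfold ev
    rw [hD, RingHom.map_det]
    congr 1
  have hDB : ev D B ≠ 0 := by
    rw [evD]
    convert hs using 5 with i j
    rw [hgF]
  apply hDB
  apply hB
  intro C hC
  by_contra hne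
  rw [evD] at hne
  have h1 : LinearIndependent K (fun i : Fin (r + 1) => flat (grad (g (Fin.castLE hle i)) C)) := by
    rw [← ne_eq, ← isUnit_iff_ne_zero, ← isUnit_iff_isUnit_det,
      ← linearIndependent_rows_iff_isUnit] at hne
    apply LinearIndependent.of_comp (LinearMap.funLeft K K s)
    exact hne
  have h2 : LinearIndependent K (fun i : Fin (r + 1) => grad (g (Fin.castLE hle i)) C) :=
    LinearIndependent.of_comp flat h1
  have h3 : LinearIndependent K (fun i : Fin (r + 1) =>
      (⟨grad (g (Fin.castLE hle i)) C, Submodule.subset_span ⟨_, hg _, rfl⟩⟩ : conormal T C)) := by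
    apply LinearIndependent.of_comp (conormal T C).subtype
    exact h2
  have h4 := h3.fintype_card_le_finrank
  have h5 := h C hC
  simp at h4
  omega

theorem eval_subst {σ τ : Type*} (f : MvPolynomial σ K) (p : σ → MvPolynomial τ K) (x : τ → K) :
    eval x (aeval p f) = eval (fun s => eval x (p s)) f := by
  have h : (eval x) (aeval p f) = eval₂Hom ((eval x).comp (algebraMap K (MvPolynomial τ K)))
      (fun i => (eval x) (p i)) f := map_aeval _ _ _
  rw [h]
  have h2 : (eval x).comp (algebraMap K (MvPolynomial τ K)) = RingHom.id K := by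
    ext1 z
    simp
  rw [h2]
  rfl

/-- left translation of polynomials -/
noncomputable def tr (g : Matrix (Fin m) (Fin m) K) (f : MvPolynomial (Fin m × Fin N) K) :
    MvPolynomial (Fin m × Fin N) K :=
  aeval (fun s : Fin m × Fin N => ∑ k, C (g s.1 k) * X (k, s.2)) f

theorem ev_tr (g : Matrix (Fin m) (Fin m) K) (f : MvPolynomial (Fin m × Fin N) K)
    (A : Matrix (Fin m) (Fin N) K) : ev (tr g f) A = ev f (g * A) := by
  unfold ev tr
  rw [eval_subst]
  have e : (fun s : Fin m × Fin N => eval (fun s => A s.1 s.2)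
      (∑ k, C (g s.1 k) * X (k, s.2) : MvPolynomial (Fin m × Fin N) K)) =
      fun s => (g * A) s.1 s.2 := by
    funext s
    simp [Matrix.mul_apply]
  rw [e]

theorem frame_mul {A : Matrix (Fin m) (Fin N) K} (hA : IsFrame A) {g : Matrix (Fin m) (Fin m) K}
    (hg : g.det ≠ 0) : IsFrame (g * A) := by
  unfold IsFrame at *
  have h1 : LinearIndependent K g.row := by
    rw [linearIndependent_rows_iff_isUnit, isUnit_iff_isUnit_det]
    exact isUnit_iff_ne_zero.2 hg
  rw [Fintype.linearIndependent_iff] at *
  intro c hc i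
  apply h1 c _ i
  have h2 : ∀ j, ∑ k, c k * g k j = 0 := by
    apply hA
    funext l
    have := congrFun hc l
    simp only [Finset.sum_apply, Pi.smul_apply, smul_eq_mul, Matrix.row_apply, Matrix.mul_apply,
      Pi.zero_apply] at *
    rw [← this]
    simp only [Finset.sum_mul, Finset.mul_sum]
    rw [Finset.sum_comm]
    refine Finset.sum_congr rfl (fun k _ => Finset.sum_congr rfl (fun j _ => by ring))
  funext j
  simpa [Matrix.row_apply] using h2 j

theorem isVariety_clo {T : Set (Matrix (Fin m) (Fin N) K)} (hT : ∀ A ∈ T, IsFrame A)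
    (hs : ∀ A ∈ T, ∀ g : Matrix (Fin m) (Fin m) K, g.det ≠ 0 → g * A ∈ T)
    (hn : T.Nonempty) (hi : ∀ f g, Van T (f * g) → Van T f ∨ Van T g) : IsVariety (clo T) where
  frames A hA := hA.1
  stable A hA g hg := by
    refine ⟨frame_mul hA.1 hg, fun f hf => ?_⟩
    rw [← ev_tr]
    apply hA.2
    intro B hB
    rw [ev_tr]
    exact hf _ (hs B hB g hg)
  closed A hA h := ⟨hA, fun f hf => h f ((van_clo hT f).2 hf)⟩
  nonempty := hn.mono (subset_clo hT)
  irreducible f g h := by
    simp only [van_clo hT] at *
    exact hi f g h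

end Pool.Agent.Q35.GR
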